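import Pool.Agent.X12.Sq

/-!
# Determinants of `((j+k)/p) ± ((j-k)/p)` over a half range, `p ≡ 1 (mod 4)`

Let `n = (p - 1) / 2`.  The matrix `A` of `((j+k)/p) - ((j-k)/p)`, `1 ≤ j, k ≤ n`, has square `p`, so
its characteristic polynomial is a power of the irreducible polynomial `X ^ 2 - p`, and its
determinant is `(-p) ^ ((p-1)/4)`.  The matrix `B` of `((j+k)/p) + ((j-k)/p)` exchanges the vectors `1`
and `χ` up to sign and has square `p - 2 (1 1ᵀ + χ χᵀ)`; with `p = a ^ 2 + b ^ 2` a perturbation of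
rank two of `B` has square `p`.
-/

set_option autoImplicit false

namespace Pool.Agent.Results.MP_fe1d70_nt.HalfRangeQ1

open MvPolynomial Matrix Finset Pool.Agent.X12

/-- `A_p`: the determinant of `((j+k)/p) - ((j-k)/p)`, `1 ≤ j, k ≤ (p-1)/2`. -/
noncomputable def A (p : ℕ) [Fact p.Prime] : ℤ :=
  Matrix.det (Matrix.of fun j k : Fin ((p - 1) / 2) =>
    legendreSym p (((j : ℤ) + 1) + ((k : ℤ) + 1)) - legendreSym p (((j : ℤ) + 1) - ((k : ℤ) + 1)))

/-- `D_p`: the determinant, over `ℤ[x, y, z, w]` with `x = X 0`, `y = X 1`, `z = X 2`, `w = X 3`, of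
`x + ((j+k)/p) + ((j-k)/p) + (j/p) y + (k/p) z + (jk/p) w`, `1 ≤ j, k ≤ (p-1)/2`. -/
noncomputable def D (p : ℕ) [Fact p.Prime] : MvPolynomial (Fin 4) ℤ :=
  Matrix.det (Matrix.of fun j k : Fin ((p - 1) / 2) =>
    (X 0 + C (legendreSym p (((j : ℤ) + 1) + ((k : ℤ) + 1))) +
      C (legendreSym p (((j : ℤ) + 1) - ((k : ℤ) + 1))) +
      C (legendreSym p ((j : ℤ) + 1)) * X 1 + C (legendreSym p ((k : ℤ) + 1)) * X 2 +
      C (legendreSym p (((j : ℤ) + 1) * ((k : ℤ) + 1))) * X 3 : MvPolynomial (Fin 4) ℤ))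

/-- **Q1 of the problem, answered affirmatively.** For every prime `p ≡ 1 (mod 4)`, with
`n = (p - 1) / 2`, `A_p = (-p) ^ ((p-1)/4)` and
`D_p = (-p) ^ ((p-5)/4) (n ^ 2 w x - (n y - 1) (n z - 1))`. -/
theorem result (p : ℕ) [Fact p.Prime] (hp : p % 4 = 1) :
    A p = (-(p : ℤ)) ^ ((p - 1) / 4) ∧
    D p = C ((-(p : ℤ)) ^ ((p - 5) / 4)) *
      (C (((p - 1) / 2 : ℕ) : ℤ) ^ 2 * X 3 * X 0 -
        (C (((p - 1) / 2 : ℕ) : ℤ) * X 1 - 1) * (C (((p - 1) / 2 : ℕ) : ℤ) * X 2 - 1)) := by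
  have hp5 : 5 ≤ p := by
    have := (Fact.out : p.Prime).two_le
    omega
  obtain ⟨m, hm⟩ : ∃ m, p = 4 * (m + 1) + 1 := ⟨(p - 5) / 4, by omega⟩
  have hn2 : (p - 1) / 2 = 2 * (m + 1) := by omega
  have e1 : (p - 1) / 4 = m + 1 := by omega
  have e2 : (p - 5) / 4 = m := by omega
  unfold A D
  rw [hn2, e1, e2]
  set n := 2 * (m + 1) with hndef
  have hn : p = 2 * n + 1 := by omega
  refine ⟨?_, ?_⟩
  · rw [← det_Am hn hndef hp]
    congr 1
    ext j k
    simp only [of_apply, legendre_eq, Am]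
    push_cast
    rfl
  · have key := det_rank_two ((Bm p n).map (C : ℤ →+* MvPolynomial (Fin 4) ℤ))
      ((Um p n).map (C : ℤ →+* MvPolynomial (Fin 4) ℤ))
      (!![X 0, X 2; X 1, X 3] : Matrix (Fin 2) (Fin 2) (MvPolynomial (Fin 4) ℤ))
      (C (n : ℤ)) ?_ ?_
    · have h1 : (Matrix.of fun j k : Fin n =>
          (X 0 + C (legendreSym p (((j : ℤ) + 1) + ((k : ℤ) + 1))) +
            C (legendreSym p (((j : ℤ) + 1) - ((k : ℤ) + 1))) +
            C (legendreSym p ((j : ℤ) + 1)) * X 1 + C (legendreSym p ((k : ℤ) + 1)) * X 2 +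
            C (legendreSym p (((j : ℤ) + 1) * ((k : ℤ) + 1))) * X 3 : MvPolynomial (Fin 4) ℤ)) =
          (Bm p n).map (C : ℤ →+* MvPolynomial (Fin 4) ℤ) +
            (Um p n).map (C : ℤ →+* MvPolynomial (Fin 4) ℤ) *
              (!![X 0, X 2; X 1, X 3] : Matrix (Fin 2) (Fin 2) (MvPolynomial (Fin 4) ℤ)) *
              ((Um p n).map (C : ℤ →+* MvPolynomial (Fin 4) ℤ))ᵀ := by
        ext1 j k
        simp only [of_apply, legendre_eq, Matrix.add_apply, Matrix.map_apply, Bm, Um,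
          Matrix.mul_apply, Fin.sum_univ_two, transpose_apply, Matrix.cons_val_zero,
          Matrix.cons_val_one, Matrix.of_apply, Matrix.cons_val', Matrix.empty_val',
          Matrix.cons_val_fin_one]
        push_cast
        rw [qc_mul]
        simp only [map_add, map_mul, map_one]
        ring
      rw [h1, key]
      have h2 : ((Bm p n).map (C : ℤ →+* MvPolynomial (Fin 4) ℤ)).det = C (Bm p n).det := by
        rw [← RingHom.mapMatrix_apply, ← RingHom.map_det]
      rw [h2, det_Bm hn hndef hp, det_fin_two]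
      simp only [sw, Matrix.sub_apply, Matrix.smul_apply, Matrix.mul_apply, Fin.sum_univ_two,
        Matrix.of_apply, Matrix.cons_val', Matrix.cons_val_zero, Matrix.cons_val_one,
        Matrix.empty_val', Matrix.cons_val_fin_one, smul_eq_mul, Matrix.one_apply_eq,
        Matrix.one_apply_ne (show (0 : Fin 2) ≠ 1 by decide),
        Matrix.one_apply_ne (show (1 : Fin 2) ≠ 0 by decide), map_neg]
      ring
    · have h := congrArg (fun M => M.map (C : ℤ →+* MvPolynomial (Fin 4) ℤ)) (Bm_mul_Um hn hp)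
      simp only [Matrix.map_mul] at h
      rw [h]
      ext1 i j
      fin_cases j <;> simp [sw, Matrix.mul_apply, Fin.sum_univ_two]
    · have h := congrArg (fun M => M.map (C : ℤ →+* MvPolynomial (Fin 4) ℤ)) (Um_trans_mul hn hp)
      simp only [Matrix.map_mul] at h
      rw [← Matrix.transpose_map, h]
      ext1 i j
      simp only [Matrix.map_apply, Matrix.smul_apply, Matrix.one_apply, smul_eq_mul, map_mul]
      split_ifs <;> simp

end Pool.Agent.Results.MP_fe1d70_nt.HalfRangeQ1
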